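import Mathlib

set_option autoImplicit false

/-!
A safety condition over two colours whose general memory is 2 and whose chromatic memory is
infinite.
-/

namespace Pool.Agent.Results.MP_674d90_lc.SafetyInfiniteChromatic

/-! ### Arenas, strategies, memory structures -/

/-- An arena over the set of colours `C`: a finite non-empty set `V` of nodes, the subset `VP` of
the nodes owned by Protagonist (the others are owned by Antagonist), and a finite set `E` of edges
(source, colour, target) such that every node has at least one outgoing edge. -/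
structure Arena (C : Type) where
  V : Type
  finite_nodes : Finite V
  nonempty_nodes : Nonempty V
  VP : Set V
  E : Set (V × C × V)
  finite_edges : E.Finite
  exists_edge : ∀ v, ∃ e ∈ E, e.1 = v

variable {C : Type}

/-- Triples (source, colour, target); the edges of the arena are those lying in `A.E`. -/
abbrev Arena.Edge (A : Arena C) : Type := A.V × C × A.V

/-- The last node of the finite path `p` that starts at `u` (it is `u` for the empty path). -/
def Arena.last (A : Arena C) : A.V → List A.Edge → A.V
  | u, [] => u
  | _, e :: p => A.last e.2.2 p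

/-- `p` is a finite path of the arena that starts at `u`. -/
def Arena.IsPath (A : Arena C) : A.V → List A.Edge → Prop
  | _, [] => True
  | u, e :: p => e ∈ A.E ∧ e.1 = u ∧ A.IsPath e.2.2 p

/-- A Protagonist strategy: it assigns to every finite path (a starting node `u` and the list `p`
of its edges) ending in a node of Protagonist an outgoing edge of its last node. (Its values on
other arguments are irrelevant.) -/
structure Strategy (A : Arena C) where
  move : A.V → List A.Edge → A.Edge
  legal : ∀ u p, A.IsPath u p → A.last u p ∈ A.VP →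
    move u p ∈ A.E ∧ (move u p).1 = A.last u p

/-- `π` is an infinite play from `u`. -/
def Arena.IsPlay (A : Arena C) (u : A.V) (π : ℕ → A.Edge) : Prop :=
  (π 0).1 = u ∧ (∀ i, π i ∈ A.E) ∧ ∀ i, (π (i + 1)).1 = (π i).2.2

/-- The infinite play `π` from `u` is consistent with the strategy `S`. -/
def Strategy.Consistent {A : Arena C} (S : Strategy A) (u : A.V) (π : ℕ → A.Edge) : Prop :=
  ∀ i, (π i).1 ∈ A.VP → π i = S.move u ((List.range i).map π)

/-- `S` wins from `u`: the colour sequence of every infinite play from `u` consistent with `S`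
lies in `W`. -/
def Strategy.WinsFrom {A : Arena C} (S : Strategy A) (W : Set (ℕ → C)) (u : A.V) : Prop :=
  ∀ π : ℕ → A.Edge, A.IsPlay u π → S.Consistent u π → (fun i => (π i).2.1) ∈ W

/-- `S` is optimal: it wins from every node from which some Protagonist strategy wins. -/
def Strategy.Optimal {A : Arena C} (S : Strategy A) (W : Set (ℕ → C)) : Prop :=
  ∀ u, (∃ S' : Strategy A, S'.WinsFrom W u) → S.WinsFrom W u

/-- A memory structure with `k` states for the arena `A`: an initial state and an update
function. -/
structure Memory (A : Arena C) (k : ℕ) where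
  init : Fin k
  upd : Fin k → A.Edge → Fin k

/-- The memory state reached from the initial one after the edge sequence `p`. -/
def Memory.state {A : Arena C} {k : ℕ} (μ : Memory A k) (p : List A.Edge) : Fin k :=
  p.foldl μ.upd μ.init

/-- The memory structure is chromatic: the update depends only on the memory state and on the
colour of the edge. -/
def Memory.Chromatic {A : Arena C} {k : ℕ} (μ : Memory A k) : Prop :=
  ∀ m, ∀ e ∈ A.E, ∀ e' ∈ A.E, e.2.1 = e'.2.1 → μ.upd m e = μ.upd m e'

/-- The strategy `S` is built on the memory structure `μ`: its move at a path depends only on the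
last node of the path and on the memory state after the path. -/
def Strategy.BuiltOn {A : Arena C} {k : ℕ} (S : Strategy A) (μ : Memory A k) : Prop :=
  ∀ u₁ p₁ u₂ p₂, A.IsPath u₁ p₁ → A.IsPath u₂ p₂ → A.last u₁ p₁ = A.last u₂ p₂ →
    A.last u₁ p₁ ∈ A.VP → μ.state p₁ = μ.state p₂ → S.move u₁ p₁ = S.move u₂ p₂

/-- The general memory of `W`: the least `k ≥ 1` such that in every arena Protagonist has an
optimal strategy built on some memory structure with `k` states, and `⊤` if there is none. -/
noncomputable def GenMem (W : Set (ℕ → C)) : ℕ∞ :=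
  sInf {k : ℕ∞ | ∃ n : ℕ, k = n ∧ 1 ≤ n ∧
    ∀ A : Arena C, ∃ (μ : Memory A n) (S : Strategy A), S.BuiltOn μ ∧ S.Optimal W}

/-- The chromatic memory of `W`: the least `k ≥ 1` such that in every arena Protagonist has an
optimal strategy built on some chromatic memory structure with `k` states, and `⊤` if there is
none. -/
noncomputable def ChrMem (W : Set (ℕ → C)) : ℕ∞ :=
  sInf {k : ℕ∞ | ∃ n : ℕ, k = n ∧ 1 ≤ n ∧
    ∀ A : Arena C, ∃ (μ : Memory A n) (S : Strategy A),
      μ.Chromatic ∧ S.BuiltOn μ ∧ S.Optimal W}

/-! ### Generalities on paths -/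

lemma last_append {A : Arena C} (u : A.V) (p q : List A.Edge) :
    A.last u (p ++ q) = A.last (A.last u p) q := by
  induction p generalizing u with
  | nil => rfl
  | cons e p ih => simp only [List.cons_append, Arena.last]; exact ih _

lemma isPath_append {A : Arena C} (u : A.V) (p q : List A.Edge) :
    A.IsPath u (p ++ q) ↔ A.IsPath u p ∧ A.IsPath (A.last u p) q := by
  induction p generalizing u with
  | nil => simp [Arena.IsPath, Arena.last]
  | cons e p ih =>
    simp only [List.cons_append, Arena.IsPath, Arena.last, ih]
    tauto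

/-- Finite paths from `u` consistent with `S`. -/
inductive Cons {A : Arena C} (S : Strategy A) (u : A.V) : List A.Edge → Prop
  | nil : Cons S u []
  | snoc (p : List A.Edge) (e : A.Edge) : Cons S u p → e ∈ A.E → e.1 = A.last u p →
      (A.last u p ∈ A.VP → e = S.move u p) → Cons S u (p ++ [e])

lemma Cons.isPath {A : Arena C} {S : Strategy A} {u : A.V} {p : List A.Edge}
    (h : Cons S u p) : A.IsPath u p := by
  induction h with
  | nil => trivial
  | snoc p e _ he hs _ ih =>
    rw [isPath_append]
    exact ⟨ih, he, hs, trivial⟩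

lemma Cons.of_append {A : Arena C} {S : Strategy A} {u : A.V} {p : List A.Edge}
    (h : Cons S u p) : ∀ q r, p = q ++ r → Cons S u q := by
  induction h with
  | nil =>
    intro q r hqr
    have : q = [] := by
      cases q with
      | nil => rfl
      | cons x q => simp at hqr
    subst this
    exact Cons.nil
  | snoc p e hp he hs hm ih =>
    intro q r hqr
    rcases List.eq_nil_or_concat r with rfl | ⟨r', x, rfl⟩
    · rw [List.append_nil] at hqr
      rw [← hqr]
      exact Cons.snoc p e hp he hs hm
    · rw [List.concat_eq_append, ← List.append_assoc] at hqr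
      have := List.append_inj' hqr rfl
      exact ih q r' this.1

lemma Cons.last_step {A : Arena C} {S : Strategy A} {u : A.V} {p : List A.Edge} {e : A.Edge}
    (h : Cons S u (p ++ [e])) :
    Cons S u p ∧ e ∈ A.E ∧ e.1 = A.last u p ∧ (A.last u p ∈ A.VP → e = S.move u p) := by
  generalize hq : p ++ [e] = q at h
  cases h with
  | nil => simp at hq
  | snoc p' e' hp he hs hm =>
    have := List.append_inj' hq rfl
    obtain ⟨h1, h2⟩ := this
    have h3 : e = e' := by simpa using h2
    subst h1 h3
    exact ⟨hp, he, hs, hm⟩

/-- Every finite path consistent with `S` is the beginning of an infinite play consistent with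
`S`. -/
lemma Cons.exists_play {A : Arena C} {S : Strategy A} {u : A.V} {p : List A.Edge}
    (h : Cons S u p) :
    ∃ π : ℕ → A.Edge, A.IsPlay u π ∧ S.Consistent u π ∧ (List.range p.length).map π = p := by
  classical
  let next : List A.Edge → A.Edge := fun q =>
    if A.last u q ∈ A.VP then S.move u q else (A.exists_edge (A.last u q)).choose
  let g : List A.Edge → A.Edge := fun q =>
    if h : q.length < p.length then p[q.length] else next q
  let build : ℕ → List A.Edge := fun i => Nat.rec [] (fun _ q => q ++ [g q]) i
  have build_zero : build 0 = [] := rfl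
  have build_succ : ∀ i, build (i + 1) = build i ++ [g (build i)] := fun i => rfl
  have build_len : ∀ i, (build i).length = i := by
    intro i
    induction i with
    | zero => rfl
    | succ i ih => rw [build_succ]; simp [ih]
  have build_take : ∀ i, i ≤ p.length → build i = p.take i := by
    intro i
    induction i with
    | zero => intro _; simp [build_zero]
    | succ i ih =>
      intro hi
      have hi' : i < p.length := hi
      rw [build_succ, List.take_succ_eq_append_getElem hi', ← ih hi'.le]
      congr 2
      simp only [g, build_len]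
      rw [dif_pos hi']
  have build_cons : ∀ i, Cons S u (build i) := by
    intro i
    induction i with
    | zero => exact Cons.nil
    | succ i ih =>
      by_cases hi : i < p.length
      · rw [build_take (i + 1) hi]
        exact h.of_append _ _ (List.take_append_drop (i + 1) p).symm
      · rw [build_succ]
        have hg : g (build i) = next (build i) := by
          simp only [g, build_len]
          rw [dif_neg hi]
        rw [hg]
        by_cases hv : A.last u (build i) ∈ A.VP
        · have hn : next (build i) = S.move u (build i) := if_pos hv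
          rw [hn]
          have hl := S.legal u (build i) ih.isPath hv
          exact Cons.snoc _ _ ih hl.1 hl.2 (fun _ => rfl)
        · have hn : next (build i) = (A.exists_edge (A.last u (build i))).choose := if_neg hv
          rw [hn]
          have hc := (A.exists_edge (A.last u (build i))).choose_spec
          exact Cons.snoc _ _ ih hc.1 hc.2 (fun hv' => absurd hv' hv)
  have build_map : ∀ i, (List.range i).map (fun j => g (build j)) = build i := by
    intro i
    induction i with
    | zero => rfl
    | succ i ih => rw [List.range_succ, List.map_append, ih, build_succ]; rfl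
  refine ⟨fun i => g (build i), ⟨?_, ?_, ?_⟩, ?_, ?_⟩
  · have := (build_succ 0 ▸ build_cons 1).last_step
    exact this.2.2.1
  · intro i
    exact (build_succ i ▸ build_cons (i + 1)).last_step.2.1
  · intro i
    have := (build_succ (i + 1) ▸ build_cons (i + 1 + 1)).last_step.2.2.1
    rw [this, build_succ i, last_append]
    rfl
  · intro i hi
    have := (build_succ i ▸ build_cons (i + 1)).last_step
    rw [build_map]
    exact this.2.2.2 (this.2.2.1 ▸ hi)
  · rw [build_map, build_take _ le_rfl, List.take_length]

/-! ### The automaton -/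

/-- The states of the automaton. -/
inductive St
  | dead
  | E (n : ℕ)
  | P (n : ℕ) (t : Bool)

open St

open Classical in
/-- The marked levels: the numbers `2 ^ j + 1`. -/
noncomputable def mark (n : ℕ) : Bool := decide (∃ j, n = 2 ^ j + 1)

lemma mark_true {n : ℕ} (h : ∃ j, n = 2 ^ j + 1) : mark n = true := by
  simp [mark, h]

lemma mark_false {n : ℕ} (h : ¬ ∃ j, n = 2 ^ j + 1) : mark n = false := by
  simp only [mark, h, decide_false]

/-- The transitions of the automaton. -/
noncomputable def step : St → Bool → St
  | dead, _ => dead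
  | E n, false => E (n + 1)
  | E 0, true => dead
  | E (n + 1), true => E n
  | P n t, false => P (n + 1) t
  | P n false, true =>
      if n % 2 = 0 then E n else P (n - 1) (mark n)
  | P n true, true => if n % 2 = 0 then (match n with | 0 => dead | m + 1 => E m) else E n

/-- The rank of a state. -/
def rk : St → ℕ
  | dead => 0
  | E n => 2 * n + 1
  | P n _ => 2 * n + 2

/-- The simulation order. -/
def le (x y : St) : Prop := x = y ∨ rk x < rk y

lemma le_refl' (x : St) : le x x := Or.inl rfl

lemma le_trans' {x y z : St} (h : le x y) (h' : le y z) : le x z := by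
  rcases h with rfl | h
  · exact h'
  · rcases h' with rfl | h'
    · exact Or.inr h
    · exact Or.inr (h.trans h')

lemma le_dead {x : St} (h : le x dead) : x = dead := by
  rcases h with h | h
  · exact h
  · simp [rk] at h

lemma step_mono {x y : St} (h : le x y) (c : Bool) : le (step x c) (step y c) := by
  rcases h with rfl | h
  · exact le_refl' _
  · rcases x with _ | n | ⟨n, t⟩
    · cases hy : step y c with
      | dead => exact Or.inl (by simp [step])
      | E m => exact Or.inr (by simp [step, rk])
      | P m s => exact Or.inr (by simp [step, rk])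
    · rcases y with _ | m | ⟨m, s⟩
      · simp [rk] at h
      · simp only [rk] at h
        cases c
        · right; simp only [step, rk]; omega
        · rcases n with _ | n <;> rcases m with _ | m <;> simp [step, rk, le] <;> omega
      · simp only [rk] at h
        cases c
        · right; simp only [step, rk]; omega
        · cases s <;> rcases n with _ | n <;> rcases m with _ | m <;>
            simp only [step] <;> (try split_ifs) <;> simp [rk, le] <;> omega
    · rcases y with _ | m | ⟨m, s⟩
      · simp [rk] at h
      · simp only [rk] at h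
        cases c
        · right; simp only [step, rk]; omega
        · cases t <;> rcases n with _ | n <;> rcases m with _ | m <;>
            simp only [step] <;> (try split_ifs) <;> simp [rk, le] <;> omega
      · simp only [rk] at h
        cases c
        · right; simp only [step, rk]; omega
        · cases t <;> cases s <;> rcases n with _ | n <;> rcases m with _ | m <;>
            simp only [step] <;> (try split_ifs) <;> simp [rk, le] <;> omega

/-- The initial state. -/
def q0 : St := P 0 false

/-- The state reached after `n` letters. -/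
noncomputable def run (x : ℕ → Bool) : ℕ → St
  | 0 => q0
  | n + 1 => step (run x n) (x n)

/-- The winning condition: the automaton never dies. -/
def W : Set (ℕ → Bool) := {x | ∀ n, run x n ≠ dead}

/-- The state reached from `q` after a finite word. -/
noncomputable def runL (q : St) (w : List Bool) : St := w.foldl step q

lemma run_eq_runL (x : ℕ → Bool) (n : ℕ) : run x n = runL q0 ((List.range n).map x) := by
  induction n with
  | zero => rfl
  | succ n ih =>
    have h : runL q0 ((List.range (n + 1)).map x) =
        step (runL q0 ((List.range n).map x)) (x n) := by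
      rw [List.range_succ, List.map_append]
      unfold runL
      rw [List.foldl_append]
      rfl
    rw [h, ← ih]
    rfl

lemma isClosed_W : IsClosed W := by
  let _ : TopologicalSpace St := ⊥
  have _ : DiscreteTopology St := ⟨rfl⟩
  have hc : ∀ n, Continuous (fun x : ℕ → Bool => run x n) := by
    intro n
    induction n with
    | zero => exact continuous_const
    | succ n ih =>
      have : Continuous (fun p : St × Bool => step p.1 p.2) := continuous_of_discreteTopology
      exact this.comp (ih.prodMk (continuous_apply n))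
  have h1 : ∀ n, IsClosed {x : ℕ → Bool | run x n ≠ dead} := by
    intro n
    exact (isClosed_discrete {q : St | q ≠ dead}).preimage (hc n)
  have : W = ⋂ n, {x : ℕ → Bool | run x n ≠ dead} := by
    ext x; simp [W]
  rw [this]
  exact isClosed_iInter h1

/-! ### Winning positions -/

section Win

variable {A : Arena Bool}

/-- `X` is a set of positions in which Protagonist can stay, never meeting the dead state. -/
def Trap (A : Arena Bool) (X : Set (A.V × St)) : Prop :=
  ∀ v q, (v, q) ∈ X → q ≠ dead ∧
    (v ∈ A.VP → ∃ e ∈ A.E, e.1 = v ∧ (e.2.2, step q e.2.1) ∈ X) ∧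
    (v ∉ A.VP → ∀ e ∈ A.E, e.1 = v → (e.2.2, step q e.2.1) ∈ X)

/-- Protagonist can survive from the position `(v, q)`. -/
def Win (A : Arena Bool) (v : A.V) (q : St) : Prop := ∃ X, Trap A X ∧ (v, q) ∈ X

lemma Win.ne_dead {v : A.V} {q : St} (h : Win A v q) : q ≠ dead := by
  obtain ⟨X, hX, hm⟩ := h
  exact (hX v q hm).1

lemma Win.stepP {v : A.V} {q : St} (h : Win A v q) (hv : v ∈ A.VP) :
    ∃ e ∈ A.E, e.1 = v ∧ Win A e.2.2 (step q e.2.1) := by
  obtain ⟨X, hX, hm⟩ := h
  obtain ⟨e, he, hs, hx⟩ := (hX v q hm).2.1 hv
  exact ⟨e, he, hs, X, hX, hx⟩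

lemma Win.stepA {v : A.V} {q : St} (h : Win A v q) (hv : v ∉ A.VP) :
    ∀ e ∈ A.E, e.1 = v → Win A e.2.2 (step q e.2.1) := by
  obtain ⟨X, hX, hm⟩ := h
  intro e he hs
  exact ⟨X, hX, (hX v q hm).2.2 hv e he hs⟩

lemma Win.mono {v : A.V} {q q' : St} (h : Win A v q) (hq : le q q') : Win A v q' := by
  obtain ⟨X, hX, hm⟩ := h
  refine ⟨{z | ∃ q, le q z.2 ∧ (z.1, q) ∈ X}, ?_, q, hq, hm⟩
  rintro w r ⟨s, hs, hsX⟩
  obtain ⟨h1, h2, h3⟩ := hX w s hsX
  refine ⟨?_, ?_, ?_⟩
  · rintro rfl
    exact h1 (le_dead hs)
  · intro hw
    obtain ⟨e, he, hs', hx⟩ := h2 hw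
    exact ⟨e, he, hs', _, step_mono hs _, hx⟩
  · intro hw e he hs'
    exact ⟨_, step_mono hs _, h3 hw e he hs'⟩

/-- If a strategy wins from `u`, then no finite path consistent with it leads to the dead
state. -/
lemma ne_dead_of_winsFrom {S : Strategy A} {u : A.V} (hS : S.WinsFrom W u)
    {p : List A.Edge} (hp : Cons S u p) : runL q0 (p.map fun e => e.2.1) ≠ dead := by
  obtain ⟨π, h1, h2, h3⟩ := hp.exists_play
  have h4 := hS π h1 h2
  have h5 := h4 p.length
  rw [run_eq_runL] at h5
  have h6 : (List.range p.length).map (fun i => (π i).2.1) = p.map fun e => e.2.1 := by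
    conv_rhs => rw [← h3]
    rw [List.map_map]
    rfl
  rw [h6] at h5
  exact h5

lemma win_of_winsFrom {S : Strategy A} {u : A.V} (hS : S.WinsFrom W u) : Win A u q0 := by
  refine ⟨{z | ∃ p, Cons S u p ∧ z = (A.last u p, runL q0 (p.map fun e => e.2.1))}, ?_,
    [], Cons.nil, rfl⟩
  rintro v q ⟨p, hp, hz⟩
  obtain ⟨rfl, rfl⟩ := Prod.mk.inj hz
  have key : ∀ e : A.Edge, Cons S u (p ++ [e]) →
      (e.2.2, step (runL q0 (p.map fun e => e.2.1)) e.2.1) =
        (A.last u (p ++ [e]), runL q0 ((p ++ [e]).map fun e => e.2.1)) := by
    intro e _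
    rw [last_append, List.map_append, runL, runL, List.foldl_append]
    rfl
  refine ⟨ne_dead_of_winsFrom hS hp, ?_, ?_⟩
  · intro hv
    have hl := S.legal u p hp.isPath hv
    have hc := Cons.snoc p (S.move u p) hp hl.1 hl.2 (fun _ => rfl)
    exact ⟨S.move u p, hl.1, hl.2, _, hc, key _ hc⟩
  · intro hv e he hs
    have hc := Cons.snoc p e hp he hs (fun hv' => absurd hv' hv)
    exact ⟨_, hc, key _ hc⟩

/-- A non-empty set of states is the union of the cones above two of its elements, the first of
which lies below the initial state if the latter belongs to the set. -/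
lemma exists_pair (U : Set St) (hU : U.Nonempty) :
    ∃ a ∈ U, ∃ b ∈ U, (∀ q ∈ U, le a q ∨ le b q) ∧ (q0 ∈ U → le a q0) := by
  classical
  obtain ⟨x, hx, hmin⟩ : ∃ x ∈ U, ∀ y ∈ U, rk x ≤ rk y := by
    have hwf := (InvImage.wf rk Nat.lt_wfRel.wf).has_min U hU
    obtain ⟨x, hx, hm⟩ := hwf
    exact ⟨x, hx, fun y hy => not_lt.mp (hm y hy)⟩
  rcases x with _ | n | ⟨n, t⟩
  · refine ⟨_, hx, _, hx, fun q _ => Or.inl ?_, fun _ => ?_⟩
    · cases q with
      | dead => exact le_refl' _
      | E m => exact Or.inr (by simp [rk])
      | P m s => exact Or.inr (by simp [rk])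
    · exact Or.inr (by simp [rk, q0])
  · refine ⟨_, hx, _, hx, fun q hq => Or.inl ?_, fun h0 => ?_⟩
    · have hm := hmin q hq
      cases q with
      | dead => simp [rk] at hm
      | E m =>
        simp only [rk] at hm
        rcases Nat.lt_or_ge n m with h | h
        · exact Or.inr (by simp only [rk]; omega)
        · have : n = m := by omega
          exact Or.inl (by rw [this])
      | P m s => simp only [rk] at hm; exact Or.inr (by simp only [rk]; omega)
    · have hm := hmin _ h0
      simp only [rk, q0] at hm
      exact Or.inr (by simp only [rk, q0]; omega)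
  · by_cases h0 : P n false ∈ U
    · by_cases h1 : P n true ∈ U
      · refine ⟨_, h0, _, h1, fun q hq => ?_, fun h2 => ?_⟩
        · have hm := hmin q hq
          cases q with
          | dead => simp [rk] at hm
          | E m => simp only [rk] at hm; exact Or.inl (Or.inr (by simp only [rk]; omega))
          | P m s =>
            simp only [rk] at hm
            rcases Nat.lt_or_ge n m with h | h
            · exact Or.inl (Or.inr (by simp only [rk]; omega))
            · have : n = m := by omega
              subst this
              cases s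
              · exact Or.inl (Or.inl rfl)
              · exact Or.inr (Or.inl rfl)
        · have hm := hmin _ h2
          simp only [rk, q0] at hm
          have : n = 0 := by omega
          subst this
          exact Or.inl rfl
      · refine ⟨_, h0, _, h0, fun q hq => Or.inl ?_, fun h2 => ?_⟩
        · have hm := hmin q hq
          cases q with
          | dead => simp [rk] at hm
          | E m => simp only [rk] at hm; exact Or.inr (by simp only [rk]; omega)
          | P m s =>
            simp only [rk] at hm
            rcases Nat.lt_or_ge n m with h | h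
            · exact Or.inr (by simp only [rk]; omega)
            · have : n = m := by omega
              subst this
              cases s
              · exact Or.inl rfl
              · exact absurd hq h1
        · have hm := hmin _ h2
          simp only [rk, q0] at hm
          have : n = 0 := by omega
          subst this
          exact Or.inl rfl
    · have ht : t = true := by
        cases t
        · exact absurd hx h0
        · rfl
      subst ht
      refine ⟨_, hx, _, hx, fun q hq => Or.inl ?_, fun h2 => ?_⟩
      · have hm := hmin q hq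
        cases q with
        | dead => simp [rk] at hm
        | E m => simp only [rk] at hm; exact Or.inr (by simp only [rk]; omega)
        | P m s =>
          simp only [rk] at hm
          rcases Nat.lt_or_ge n m with h | h
          · exact Or.inr (by simp only [rk]; omega)
          · have : n = m := by omega
            subst this
            cases s
            · exact absurd hq h0
            · exact Or.inl rfl
      · have hm := hmin _ h2
        simp only [rk, q0] at hm
        have : n = 0 := by omega
        subst this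
        exact absurd h2 h0

/-- In every arena Protagonist has a strategy with two memory states that wins from every node
from which he can survive. -/
lemma exists_two_memory (A : Arena Bool) :
    ∃ (μ : Memory A 2) (S : Strategy A), S.BuiltOn μ ∧ ∀ u, Win A u q0 → S.WinsFrom W u := by
  classical
  have hr : ∀ v : A.V, ∃ r : Fin 2 → St, (∃ q, Win A v q) →
      (∀ i, Win A v (r i)) ∧ (∀ q, Win A v q → ∃ i, le (r i) q) ∧
      (Win A v q0 → le (r 0) q0) := by
    intro v
    by_cases hv : ∃ q, Win A v q
    · obtain ⟨a, ha, b, hb, h1, h2⟩ := exists_pair {q | Win A v q} hv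
      refine ⟨![a, b], fun _ => ⟨?_, ?_, ?_⟩⟩
      · intro i
        fin_cases i
        · exact ha
        · exact hb
      · intro q hq
        rcases h1 q hq with h | h
        · exact ⟨0, h⟩
        · exact ⟨1, h⟩
      · exact h2
    · exact ⟨fun _ => dead, fun h => absurd h hv⟩
  choose r hr using hr
  let μ : Memory A 2 :=
    { init := 0
      upd := fun i e =>
        if h : ∃ j, le (r e.2.2 j) (step (r e.1 i) e.2.1) then h.choose else 0 }
  let mv : A.V → List A.Edge → A.Edge := fun u p =>
    if h : ∃ e ∈ A.E, e.1 = A.last u p ∧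
        Win A e.2.2 (step (r (A.last u p) (μ.state p)) e.2.1) then h.choose
    else (A.exists_edge (A.last u p)).choose
  have hmv : ∀ u p, mv u p ∈ A.E ∧ (mv u p).1 = A.last u p := by
    intro u p
    by_cases h : ∃ e ∈ A.E, e.1 = A.last u p ∧
        Win A e.2.2 (step (r (A.last u p) (μ.state p)) e.2.1)
    · have : mv u p = h.choose := dif_pos h
      rw [this]
      exact ⟨h.choose_spec.1, h.choose_spec.2.1⟩
    · have : mv u p = (A.exists_edge (A.last u p)).choose := dif_neg h
      rw [this]
      exact (A.exists_edge (A.last u p)).choose_spec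
  let S : Strategy A := { move := mv, legal := fun u p _ _ => hmv u p }
  refine ⟨μ, S, ?_, ?_⟩
  · intro u₁ p₁ u₂ p₂ _ _ hl _ hμ
    change mv u₁ p₁ = mv u₂ p₂
    simp only [mv, hl, hμ]
  · intro u hwin π hπ hc
    have key : ∀ i, A.last u ((List.range i).map π) = (π i).1 ∧
        Win A (π i).1 (r (π i).1 (μ.state ((List.range i).map π))) ∧
        le (r (π i).1 (μ.state ((List.range i).map π))) (run (fun i => (π i).2.1) i) := by
      intro i
      induction i with
      | zero =>
        obtain ⟨h1, h2, h3⟩ := hr u ⟨q0, hwin⟩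
        refine ⟨hπ.1.symm, ?_, ?_⟩
        · rw [hπ.1]; exact h1 _
        · rw [hπ.1]; exact h3 hwin
      | succ i ih =>
        obtain ⟨ih1, ih2, ih3⟩ := ih
        have hlast : A.last u ((List.range (i + 1)).map π) = (π (i + 1)).1 := by
          rw [List.range_succ, List.map_append, last_append, hπ.2.2 i]
          rfl
        have hw' : Win A (π i).2.2
            (step (r (π i).1 (μ.state ((List.range i).map π))) (π i).2.1) := by
          by_cases hv : (π i).1 ∈ A.VP
          · have hm : π i = mv u ((List.range i).map π) := hc i hv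
            have hex : ∃ e ∈ A.E, e.1 = A.last u ((List.range i).map π) ∧
                Win A e.2.2 (step (r (A.last u ((List.range i).map π))
                  (μ.state ((List.range i).map π))) e.2.1) := by
              rw [ih1]
              exact ih2.stepP hv
            have hm' : mv u ((List.range i).map π) = hex.choose := dif_pos hex
            have hs := hex.choose_spec.2.2
            rw [← hm', ← hm, ih1] at hs
            exact hs
          · exact ih2.stepA hv _ (hπ.2.1 i) rfl
        have hst : μ.state ((List.range (i + 1)).map π) =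
            μ.upd (μ.state ((List.range i).map π)) (π i) := by
          rw [List.range_succ, List.map_append, Memory.state, List.foldl_append]
          rfl
        have hex : ∃ j, le (r (π i).2.2 j)
            (step (r (π i).1 (μ.state ((List.range i).map π))) (π i).2.1) :=
          (hr _ ⟨_, hw'⟩).2.1 _ hw'
        have hupd : μ.upd (μ.state ((List.range i).map π)) (π i) = hex.choose := dif_pos hex
        refine ⟨hlast, ?_, ?_⟩
        · rw [hst, hπ.2.2 i]
          exact (hr _ ⟨_, hw'⟩).1 _
        · rw [hst, hπ.2.2 i, hupd]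
          exact le_trans' hex.choose_spec (step_mono ih3 _)
    intro i hd
    obtain ⟨_, h2, h3⟩ := key i
    rw [hd] at h3
    exact h2.ne_dead (le_dead h3)

end Win

/-! ### The arenas that defeat chromatic memory -/

/-- Words of length at most `L`. -/
abbrev Wd (L : ℕ) : Type := {l : List Bool // l.length ≤ L}

/-- The nodes of the arena: `start`, and `nd b r`, where the word `r` remains to be read, before
(`b = false`) or after (`b = true`) the choice of Protagonist. -/
inductive Nd (L : ℕ) : Type
  | start : Nd L
  | nd (b : Bool) (r : Wd L) : Nd L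

instance (L : ℕ) : Finite (Nd L) := by
  have : Finite (Wd L) := (List.finite_length_le Bool L).to_subtype
  let f : Nd L → Option (Bool × Wd L) := fun v =>
    match v with
    | Nd.start => none
    | Nd.nd b r => some (b, r)
  refine Finite.of_injective f ?_
  intro v w h
  cases v <;> cases w <;> simp_all [f]

/-- The empty word. -/
def emp (L : ℕ) : Wd L := ⟨[], Nat.zero_le L⟩

/-- Antagonist first chooses one of the words `w₁`, `w₂` (preceded by the letter `false`); then
Protagonist chooses to continue with `true :: x₁` or with `false :: x₂`; then only the letter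
`false` is read. -/
inductive IsEdge {L : ℕ} (w₁ w₂ x₁ x₂ : Wd L) : Nd L → Bool → Nd L → Prop
  | s1 : IsEdge w₁ w₂ x₁ x₂ Nd.start false (Nd.nd false w₁)
  | s2 : IsEdge w₁ w₂ x₁ x₂ Nd.start false (Nd.nd false w₂)
  | c1 : IsEdge w₁ w₂ x₁ x₂ (Nd.nd false (emp L)) true (Nd.nd true x₁)
  | c2 : IsEdge w₁ w₂ x₁ x₂ (Nd.nd false (emp L)) false (Nd.nd true x₂)
  | lp : IsEdge w₁ w₂ x₁ x₂ (Nd.nd true (emp L)) false (Nd.nd true (emp L))
  | rd (b x : Bool) (r : List Bool) (h : (x :: r).length ≤ L) :
      IsEdge w₁ w₂ x₁ x₂ (Nd.nd b ⟨x :: r, h⟩) x (Nd.nd b ⟨r, (Nat.le_succ _).trans h⟩)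

/-- The arena. -/
noncomputable def arena {L : ℕ} (w₁ w₂ x₁ x₂ : Wd L) : Arena Bool where
  V := Nd L
  finite_nodes := inferInstance
  nonempty_nodes := ⟨Nd.start⟩
  VP := {Nd.nd false (emp L)}
  E := {e | IsEdge w₁ w₂ x₁ x₂ e.1 e.2.1 e.2.2}
  finite_edges := Set.toFinite _
  exists_edge := by
    rintro (_ | ⟨b, ⟨_ | ⟨x, r⟩, h⟩⟩)
    · exact ⟨(_, _, _), IsEdge.s1, rfl⟩
    · cases b
      · exact ⟨(_, _, _), IsEdge.c1, rfl⟩
      · exact ⟨(_, _, _), IsEdge.lp, rfl⟩
    · exact ⟨(_, _, _), IsEdge.rd b x r h, rfl⟩

section Lower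

variable {L : ℕ} {w₁ w₂ x₁ x₂ : Wd L}

/-- The path that reads the word `r`. -/
def rd (L : ℕ) (b : Bool) :
    (r : List Bool) → r.length ≤ L → List (Nd L × Bool × Nd L)
  | [], _ => []
  | x :: r, h => (Nd.nd b ⟨x :: r, h⟩, x, Nd.nd b ⟨r, (Nat.le_succ _).trans h⟩) ::
      rd L b r ((Nat.le_succ _).trans h)

lemma rd_colors (b : Bool) (r : List Bool) (h : r.length ≤ L) :
    (rd L b r h).map (fun e => e.2.1) = r := by
  induction r with
  | nil => rfl
  | cons x r ih => simp only [rd, List.map_cons, ih]

lemma cons_rd {S : Strategy (arena w₁ w₂ x₁ x₂)} {u : Nd L} (b : Bool)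
    (r : List Bool) (h : r.length ≤ L) (p : List (Nd L × Bool × Nd L))
    (hp : Cons S u p)
    (hl : (arena w₁ w₂ x₁ x₂).last u p = Nd.nd b ⟨r, h⟩) :
    Cons S u (p ++ rd L b r h) ∧
      (arena w₁ w₂ x₁ x₂).last u (p ++ rd L b r h) = Nd.nd b (emp L) := by
  induction r generalizing p with
  | nil => simp only [rd, List.append_nil]; exact ⟨hp, hl⟩
  | cons x r ih =>
    have h' : r.length ≤ L := (Nat.le_succ _).trans h
    have h1 : Cons S u (p ++ [(Nd.nd b ⟨x :: r, h⟩, x, Nd.nd b ⟨r, h'⟩)]) := by
      refine Cons.snoc _ _ hp ?_ hl.symm ?_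
      · exact IsEdge.rd b x r h
      · intro hv
        rw [hl] at hv
        have hv' : Nd.nd b ⟨x :: r, h⟩ = Nd.nd false (emp L) := hv
        simp [emp] at hv'
    have h2 : (arena w₁ w₂ x₁ x₂).last u
        (p ++ [(Nd.nd b ⟨x :: r, h⟩, x, Nd.nd b ⟨r, h'⟩)]) = Nd.nd b ⟨r, h'⟩ := by
      refine (last_append (A := arena w₁ w₂ x₁ x₂) u p _).trans ?_
      rfl
    have h3 := ih h' _ h1 h2
    simp only [rd]
    rw [List.append_assoc] at h3
    exact h3

lemma runL_append (q : St) (v w : List Bool) : runL q (v ++ w) = runL (runL q v) w :=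
  List.foldl_append

lemma runL_dead (r : List Bool) : runL dead r = dead := by
  induction r with
  | nil => rfl
  | cons x r ih => exact ih

/-- If Protagonist's choices are good for the two words of Antagonist, then he can win from the
initial node. -/
lemma win_start (A B : St) (hA : A ≠ dead) (hB : B ≠ dead)
    (hw₁ : runL q0 (false :: w₁.1) = A ∨ runL q0 (false :: w₁.1) = B)
    (hw₂ : runL q0 (false :: w₂.1) = A ∨ runL q0 (false :: w₂.1) = B)
    (hx₁ : runL A (true :: x₁.1) ≠ dead) (hx₂ : runL B (false :: x₂.1) ≠ dead) :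
    Win (arena w₁ w₂ x₁ x₂) (Nd.start : Nd L) q0 := by
  refine ⟨{z | (z.1 = (Nd.start : Nd L) ∧ z.2 = q0) ∨
      (∃ r : Wd L, z.1 = Nd.nd false r ∧ (runL z.2 r.1 = A ∨ runL z.2 r.1 = B)) ∨
      (∃ r : Wd L, z.1 = Nd.nd true r ∧ runL z.2 r.1 ≠ dead)}, ?_, Or.inl ⟨rfl, rfl⟩⟩
  rintro v q (⟨h1, h2⟩ | ⟨r, h1, h2⟩ | ⟨r, h1, h2⟩)
  · simp only at h1 h2
    subst h1 h2
    refine ⟨by simp [q0], ?_, ?_⟩
    · intro hv
      have : (Nd.start : Nd L) = Nd.nd false (emp L) := hv
      simp at this
    · rintro _ ⟨a, c, b⟩ he hs
      have he' : IsEdge w₁ w₂ x₁ x₂ a c b := he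
      have hs' : a = Nd.start := hs
      subst hs'
      cases he' with
      | s1 => exact Or.inr (Or.inl ⟨w₁, rfl, hw₁⟩)
      | s2 => exact Or.inr (Or.inl ⟨w₂, rfl, hw₂⟩)
  · simp only at h1 h2
    subst h1
    have hq : q ≠ dead := by
      rintro rfl
      rw [runL_dead] at h2
      rcases h2 with h2 | h2
      · exact hA h2.symm
      · exact hB h2.symm
    refine ⟨hq, ?_, ?_⟩
    · intro hv
      have hr : r = emp L := by
        have : (Nd.nd false r : Nd L) = Nd.nd false (emp L) := hv
        simpa using this
      subst hr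
      rcases h2 with h2 | h2
      · have h3 : q = A := h2
        subst h3
        exact ⟨(_, _, _), IsEdge.c1, rfl, Or.inr (Or.inr ⟨x₁, rfl, hx₁⟩)⟩
      · have h3 : q = B := h2
        subst h3
        exact ⟨(_, _, _), IsEdge.c2, rfl, Or.inr (Or.inr ⟨x₂, rfl, hx₂⟩)⟩
    · rintro hv ⟨a, c, b⟩ he hs
      have he' : IsEdge w₁ w₂ x₁ x₂ a c b := he
      have hs' : a = Nd.nd false r := hs
      subst hs'
      cases he' with
      | c1 => exact absurd rfl hv
      | c2 => exact absurd rfl hv
      | rd _ _ r h => exact Or.inr (Or.inl ⟨_, rfl, h2⟩)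
  · simp only at h1 h2
    subst h1
    have hq : q ≠ dead := by
      rintro rfl
      exact h2 (runL_dead _)
    refine ⟨hq, ?_, ?_⟩
    · intro hv
      have : (Nd.nd true r : Nd L) = Nd.nd false (emp L) := hv
      simp at this
    · rintro hv ⟨a, c, b⟩ he hs
      have he' : IsEdge w₁ w₂ x₁ x₂ a c b := he
      have hs' : a = Nd.nd true r := hs
      subst hs'
      cases he' with
      | lp =>
        refine Or.inr (Or.inr ⟨emp L, rfl, ?_⟩)
        change step q false ≠ dead
        cases q with
        | dead => exact absurd rfl hq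
        | E n => simp [step]
        | P n t => simp [step]
      | rd _ _ r h => exact Or.inr (Or.inr ⟨_, rfl, h2⟩)

/-- A chromatic memory structure computes its state from the colours only. -/
lemma exists_color_update {A : Arena Bool} {k : ℕ} {μ : Memory A k} (hμ : μ.Chromatic) :
    ∃ fc : Fin k → Bool → Fin k, ∀ u p, A.IsPath u p →
      μ.state p = (p.map fun e => e.2.1).foldl fc μ.init := by
  classical
  let fc : Fin k → Bool → Fin k := fun m c =>
    if h : ∃ e ∈ A.E, e.2.1 = c then μ.upd m h.choose else m
  have hfc : ∀ m, ∀ e ∈ A.E, μ.upd m e = fc m e.2.1 := by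
    intro m e he
    have hex : ∃ e' ∈ A.E, e'.2.1 = e.2.1 := ⟨e, he, rfl⟩
    have : fc m e.2.1 = μ.upd m hex.choose := dif_pos hex
    rw [this]
    exact hμ m e he _ hex.choose_spec.1 hex.choose_spec.2.symm
  refine ⟨fc, ?_⟩
  intro u p hp
  unfold Memory.state
  generalize μ.init = m₀
  induction p generalizing u m₀ with
  | nil => rfl
  | cons e p ih =>
    obtain ⟨he, _, hp'⟩ := hp
    simp only [List.foldl_cons, List.map_cons]
    rw [hfc m₀ e he]
    exact ih _ hp' _

/-- The confusion principle. -/
lemma no_chromatic {k : ℕ} (A B : St) (hA : A ≠ dead) (hB : B ≠ dead)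
    (hw₁ : runL q0 (false :: w₁.1) = A) (hw₂ : runL q0 (false :: w₂.1) = B)
    (hx₁ : runL A (true :: x₁.1) ≠ dead) (hx₂ : runL B (false :: x₂.1) ≠ dead)
    (hy₁ : runL B (true :: x₁.1) = dead) (hy₂ : runL A (false :: x₂.1) = dead)
    (hconf : ∀ (fc : Fin k → Bool → Fin k) (m₀ : Fin k),
      (false :: w₁.1).foldl fc m₀ = (false :: w₂.1).foldl fc m₀) :
    ¬ ∃ (μ : Memory (arena w₁ w₂ x₁ x₂) k) (S : Strategy (arena w₁ w₂ x₁ x₂)),
      μ.Chromatic ∧ S.BuiltOn μ ∧ S.Optimal W := by
  rintro ⟨μ, S, hμ, hb, hopt⟩
  obtain ⟨fc, hfc⟩ := exists_color_update hμ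
  -- some strategy wins from the initial node
  have hwin : Win (arena w₁ w₂ x₁ x₂) (Nd.start : Nd L) q0 :=
    win_start A B hA hB (Or.inl hw₁) (Or.inr hw₂) hx₁ hx₂
  have hS : S.WinsFrom W (Nd.start : Nd L) := by
    obtain ⟨μ', S', h1, h2⟩ := exists_two_memory (arena w₁ w₂ x₁ x₂)
    exact hopt _ ⟨S', h2 _ hwin⟩
  -- the two paths of Antagonist
  have hstart : ∀ w : Wd L, IsEdge w₁ w₂ x₁ x₂ Nd.start false (Nd.nd false w) →
      Cons S (Nd.start : Nd L) [((Nd.start : Nd L), false, Nd.nd false w)] := by
    intro w hw
    refine Cons.snoc (A := arena w₁ w₂ x₁ x₂) [] (Nd.start, false, Nd.nd false w)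
      Cons.nil hw rfl ?_
    intro hv
    have hv' : (Nd.start : Nd L) = Nd.nd false (emp L) := hv
    simp at hv'
  have hpath : ∀ w : Wd L, IsEdge w₁ w₂ x₁ x₂ Nd.start false (Nd.nd false w) →
      ∃ p : List (arena w₁ w₂ x₁ x₂).Edge, (Cons S (Nd.start : Nd L) p ∧
        (arena w₁ w₂ x₁ x₂).last (Nd.start : Nd L) p = Nd.nd false (emp L)) ∧
        p.map (fun e => e.2.1) = false :: w.1 := by
    intro w hw
    refine ⟨_, cons_rd (S := S) false w.1 w.2 _ (hstart w hw) rfl, ?_⟩
    refine (List.map_append (f := fun e : Nd L × Bool × Nd L => e.2.1)).trans ?_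
    rw [rd_colors]
    rfl
  obtain ⟨p₁, hp₁, hc₁⟩ := hpath w₁ IsEdge.s1
  obtain ⟨p₂, hp₂, hc₂⟩ := hpath w₂ IsEdge.s2
  have hst : μ.state p₁ = μ.state p₂ := by
    rw [hfc _ _ hp₁.1.isPath, hfc _ _ hp₂.1.isPath, hc₁, hc₂]
    exact hconf fc _
  have hvp₁ : (arena w₁ w₂ x₁ x₂).last (Nd.start : Nd L) p₁ ∈ (arena w₁ w₂ x₁ x₂).VP := by
    rw [hp₁.2]; rfl
  have hvp₂ : (arena w₁ w₂ x₁ x₂).last (Nd.start : Nd L) p₂ ∈ (arena w₁ w₂ x₁ x₂).VP := by
    rw [hp₂.2]; rfl
  have hmv : S.move (Nd.start : Nd L) p₁ = S.move (Nd.start : Nd L) p₂ :=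
    hb _ _ _ _ hp₁.1.isPath hp₂.1.isPath (hp₁.2.trans hp₂.2.symm) hvp₁ hst
  have hleg := S.legal _ _ hp₁.1.isPath hvp₁
  have hleg₂ := S.legal _ _ hp₂.1.isPath hvp₂
  have hcons₁ := Cons.snoc _ _ hp₁.1 hleg.1 hleg.2 (fun _ => rfl)
  have hcons₂ := Cons.snoc _ _ hp₂.1 hleg₂.1 hleg₂.2 (fun _ => rfl)
  rw [← hmv] at hcons₂
  generalize S.move (Nd.start : Nd L) p₁ = e at hcons₁ hcons₂ hleg
  obtain ⟨a, c, b⟩ := e
  have he : IsEdge w₁ w₂ x₁ x₂ a c b := hleg.1
  have ha : a = Nd.nd false (emp L) := by
    have := hleg.2
    rw [hp₁.2] at this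
    exact this
  subst ha
  have hfin : ∀ (p : List (Nd L × Bool × Nd L)) (w : Wd L) (c : Bool) (x : Wd L),
      p.map (fun e => e.2.1) = false :: w.1 →
      Cons S (Nd.start : Nd L) (p ++ [(Nd.nd false (emp L), c, Nd.nd true x)]) →
      runL (runL q0 (false :: w.1)) (c :: x.1) ≠ dead := by
    intro p w c x hpw hcons
    have hl : (arena w₁ w₂ x₁ x₂).last (Nd.start : Nd L)
        (p ++ [((Nd.nd false (emp L) : Nd L), c, (Nd.nd true x : Nd L))]) = Nd.nd true x :=
      last_append (A := arena w₁ w₂ x₁ x₂) _ p _
    have h1 := cons_rd (S := S) true x.1 x.2 _ hcons hl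
    have h2 := ne_dead_of_winsFrom hS h1.1
    have e1 : List.map (fun e : Nd L × Bool × Nd L => e.2.1) p = false :: w.1 := hpw
    have h3 : List.map (fun e : Nd L × Bool × Nd L => e.2.1)
        (p ++ [((Nd.nd false (emp L) : Nd L), c, (Nd.nd true x : Nd L))] ++
          rd L true x.1 x.2) = (false :: w.1) ++ (c :: x.1) := by
      rw [List.map_append, List.map_append, e1, rd_colors]
      simp
    have h4 : runL q0 ((false :: w.1) ++ (c :: x.1)) ≠ dead := by
      rw [← h3]
      exact h2
    rw [runL_append] at h4
    exact h4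
  cases he with
  | c1 =>
    have := hfin p₂ w₂ true x₁ hc₂ hcons₂
    rw [hw₂] at this
    exact this hy₁
  | c2 =>
    have := hfin p₁ w₁ false x₂ hc₁ hcons₁
    rw [hw₁] at this
    exact this hy₂

end Lower

/-! ### Iterates of a self-map of a finite set -/

lemma iterate_add_factorial {k : ℕ} (f : Fin k → Fin k) (x : Fin k) (i : ℕ) (hi : k ≤ i)
    (c : ℕ) : f^[i + c * k.factorial] x = f^[i] x := by
  obtain ⟨a, b, hab, hfab⟩ := Fintype.exists_ne_map_eq_of_card_lt
    (fun a : Fin (k + 1) => f^[a] x) (by simp)
  wlog h : a < b generalizing a b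
  · exact this b a hab.symm hfab.symm (lt_of_le_of_ne (not_lt.mp h) hab.symm)
  have hd : (b.1 - a.1) ∣ k.factorial := by
    apply Nat.dvd_factorial
    · have : a.1 < b.1 := h
      omega
    · have := b.2
      omega
  have hper : ∀ j, a.1 ≤ j → f^[j + (b.1 - a.1)] x = f^[j] x := by
    intro j hj
    have h1 : j + (b.1 - a.1) = (j - a.1) + b.1 := by
      have : a.1 < b.1 := h
      omega
    have h2 : j = (j - a.1) + a.1 := by omega
    rw [h1, Function.iterate_add_apply, ← hfab, ← Function.iterate_add_apply, ← h2]
  have hmul : ∀ d j, a.1 ≤ j → f^[j + d * (b.1 - a.1)] x = f^[j] x := by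
    intro d
    induction d with
    | zero => intro j _; simp
    | succ d ih =>
      intro j hj
      have : j + (d + 1) * (b.1 - a.1) = (j + d * (b.1 - a.1)) + (b.1 - a.1) := by ring
      rw [this, hper _ (hj.trans (Nat.le_add_right _ _)), ih j hj]
  obtain ⟨d, hd⟩ := hd
  have ha : a.1 ≤ i := by
    have := b.2
    have : a.1 < b.1 := h
    omega
  have : c * k.factorial = (c * d) * (b.1 - a.1) := by rw [hd]; ring
  rw [this]
  exact hmul _ i ha

lemma foldl_replicate {k : ℕ} (fc : Fin k → Bool → Fin k) (m₀ : Fin k) (i : ℕ) :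
    (List.replicate i false).foldl fc m₀ = (fun m => fc m false)^[i] m₀ := by
  induction i generalizing m₀ with
  | zero => rfl
  | succ i ih => rw [List.replicate_succ, List.foldl_cons, ih]; rfl

lemma runL_P_false (n : ℕ) (t : Bool) (i : ℕ) :
    runL (P n t) (List.replicate i false) = P (n + i) t := by
  induction i generalizing n with
  | zero => rfl
  | succ i ih =>
    have : runL (P n t) (List.replicate (i + 1) false) =
      runL (P (n + 1) t) (List.replicate i false) := rfl
    rw [this, ih]
    congr 1
    omega

lemma runL_E_true (n : ℕ) (i : ℕ) (h : i ≤ n) :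
    runL (E n) (List.replicate i true) = E (n - i) := by
  induction i generalizing n with
  | zero => rfl
  | succ i ih =>
    obtain ⟨n, rfl⟩ : ∃ m, n = m + 1 := ⟨n - 1, by omega⟩
    have : runL (E (n + 1)) (List.replicate (i + 1) true) =
      runL (E n) (List.replicate i true) := rfl
    rw [this, ih n (by omega)]
    congr 1
    omega

lemma runL_E_true_dead (n : ℕ) : runL (E n) (List.replicate (n + 1) true) = dead := by
  rw [List.replicate_succ', runL_append, runL_E_true n n le_rfl, Nat.sub_self]
  rfl

/-- The word `0^m 01 0^(n-m)` without its first letter. -/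
def wd (m n : ℕ) : List Bool :=
  List.replicate (m - 1) false ++ ([false, true] ++ List.replicate (n - m) false)

lemma cons_wd {m n : ℕ} (hm : 1 ≤ m) : false :: wd m n =
    List.replicate m false ++ ([false, true] ++ List.replicate (n - m) false) := by
  obtain ⟨m, rfl⟩ : ∃ l, m = l + 1 := ⟨m - 1, by omega⟩
  rfl

lemma run_wd {m n : ℕ} (hm : 1 ≤ m) (hmn : m ≤ n) (he : m % 2 = 0) :
    runL q0 (false :: wd m n) = P n (mark (m + 1)) := by
  have h1 : (m + 1) % 2 ≠ 0 := by omega
  rw [cons_wd hm, runL_append, q0, runL_P_false, runL_append]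
  have h2 : runL (P (0 + m) false) [false, true] =
      P m (mark (m + 1)) := by
    simp only [runL, List.foldl, step, Nat.zero_add]
    rw [if_neg h1, Nat.add_sub_cancel]
  rw [h2, runL_P_false]
  congr 1
  omega

/-- No finite number of states suffices for chromatic memory. -/
lemma no_chromatic_bound (k : ℕ) (hk : 1 ≤ k) :
    ∃ A : Arena Bool, ¬ ∃ (μ : Memory A k) (S : Strategy A),
      μ.Chromatic ∧ S.BuiltOn μ ∧ S.Optimal W := by
  set F := k.factorial with hF
  have hF1 : 1 ≤ F := Nat.factorial_pos k
  set j := 2 * F + k with hj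
  have hj2 : j < 2 ^ j := Nat.lt_two_pow_self
  set m := 2 ^ j with hm
  set m' := m + 2 * F with hm'
  set n := 2 * m with hn
  have hme : m % 2 = 0 := by
    have : m = 2 * 2 ^ (j - 1) := by
      rw [hm, ← pow_succ']
      congr 1
      omega
    omega
  have hn' : n = 2 ^ (j + 1) := by rw [hn, hm, pow_succ]; ring
  have hne : n % 2 = 0 := by omega
  have hm'e : m' % 2 = 0 := by omega
  have hb1 : mark (m + 1) = true := mark_true ⟨j, rfl⟩
  have hb2 : mark (m' + 1) = false := by
    apply mark_false
    rintro ⟨i, hi⟩
    have h1 : m' = 2 ^ i := by omega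
    have h2 : 2 ^ j < 2 ^ i := by omega
    have h3 : 2 ^ i < 2 ^ (j + 1) := by omega
    have h4 : j < i := (Nat.pow_lt_pow_iff_right (by norm_num)).mp h2
    have h5 : i < j + 1 := (Nat.pow_lt_pow_iff_right (by norm_num)).mp h3
    omega
  have hb3 : mark (n + 1) = true := mark_true ⟨j + 1, by rw [hn']⟩
  have hlen : ∀ l, l ≤ n → (wd l n).length ≤ 3 * n + 3 := by
    intro l hl
    simp only [wd, List.length_append, List.length_replicate, List.length_cons, List.length_nil]
    omega
  let w₁ : Wd (3 * n + 3) := ⟨wd m' n, hlen _ (by omega)⟩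
  let w₂ : Wd (3 * n + 3) := ⟨wd m n, hlen _ (by omega)⟩
  let x₁ : Wd (3 * n + 3) := ⟨List.replicate n true, by simp; omega⟩
  let x₂ : Wd (3 * n + 3) := ⟨true :: List.replicate (n + 1) true, by simp; omega⟩
  refine ⟨arena w₁ w₂ x₁ x₂, no_chromatic (P n false) (P n true) (by simp) (by simp)
    ?_ ?_ ?_ ?_ ?_ ?_ ?_⟩
  · change runL q0 (false :: wd m' n) = _
    rw [run_wd (by omega) (by omega) hm'e, hb2]
  · change runL q0 (false :: wd m n) = _
    rw [run_wd (by omega) (by omega) hme, hb1]
  · change runL (step (P n false) true) (List.replicate n true) ≠ dead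
    have : step (P n false) true = E n := by simp [step, hne]
    rw [this, runL_E_true n n le_rfl]
    simp
  · change runL (step (step (P n true) false) true) (List.replicate (n + 1) true) ≠ dead
    have : step (step (P n true) false) true = E (n + 1) := by
      have h1 : (n + 1) % 2 ≠ 0 := by omega
      simp only [step]
      rw [if_neg h1]
    rw [this, runL_E_true (n + 1) (n + 1) le_rfl]
    simp
  · change runL (step (P n true) true) (List.replicate n true) = dead
    obtain ⟨l, hl⟩ : ∃ l, n = l + 1 := ⟨n - 1, by omega⟩
    have : step (P n true) true = E l := by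
      rw [hl]
      rw [hl] at hne
      simp only [step]
      rw [if_pos hne]
    rw [this, hl, runL_E_true_dead]
  · change runL (step (step (P n false) false) true) (List.replicate (n + 1) true) = dead
    have : step (step (P n false) false) true = P n true := by
      have h1 : (n + 1) % 2 ≠ 0 := by omega
      simp only [step]
      rw [if_neg h1, hb3, Nat.add_sub_cancel]
    rw [this, List.replicate_succ]
    obtain ⟨l, hl⟩ : ∃ l, n = l + 1 := ⟨n - 1, by omega⟩
    change runL (step (P n true) true) (List.replicate n true) = dead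
    have : step (P n true) true = E l := by
      rw [hl]
      rw [hl] at hne
      simp only [step]
      rw [if_pos hne]
    rw [this, hl, runL_E_true_dead]
  · intro fc m₀
    change (false :: wd m' n).foldl fc m₀ = (false :: wd m n).foldl fc m₀
    rw [cons_wd (by omega), cons_wd (by omega)]
    simp only [List.foldl_append, foldl_replicate]
    have e1 : (fun m => fc m false)^[m'] m₀ = (fun m => fc m false)^[m] m₀ :=
      iterate_add_factorial _ _ m (by omega) 2
    have e2 : n - m = (n - m') + 2 * F := by omega
    rw [e1, e2]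
    exact (iterate_add_factorial _ _ _ (by omega) 2).symm

/-- There is a safety condition `W` over a set of two colours whose general memory is 2 and whose
chromatic memory is infinite. -/
theorem result : ∃ W : Set (ℕ → Bool), IsClosed W ∧ GenMem W = 2 ∧ ChrMem W = ⊤ := by
  have hchr : ChrMem W = ⊤ := by
    unfold ChrMem
    rw [sInf_eq_top]
    rintro _ ⟨n, rfl, hn, h⟩
    obtain ⟨A, hA⟩ := no_chromatic_bound n hn
    exact absurd (h A) hA
  refine ⟨W, isClosed_W, ?_, hchr⟩
  apply le_antisymm
  · apply sInf_le
    refine ⟨2, rfl, by norm_num, fun A => ?_⟩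
    obtain ⟨μ, S, h1, h2⟩ := exists_two_memory A
    exact ⟨μ, S, h1, fun u ⟨S', hS'⟩ => h2 u (win_of_winsFrom hS')⟩
  · apply le_sInf
    rintro _ ⟨n, rfl, hn, h⟩
    by_contra hlt
    have hn1 : n = 1 := by
      have : (n : ℕ∞) < 2 := not_le.mp hlt
      have : n < 2 := by exact_mod_cast this
      omega
    subst hn1
    obtain ⟨A, hA⟩ := no_chromatic_bound 1 le_rfl
    obtain ⟨μ, S, h1, h2⟩ := h A
    exact hA ⟨μ, S, fun m e _ e' _ _ => Subsingleton.elim _ _, h1, h2⟩

end Pool.Agent.Results.MP_674d90_lc.SafetyInfiniteChromatic
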